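import Pool.Agent.N418.FST.Broom

set_option autoImplicit false

namespace Pool.Agent.Results.MP_5b8c2d_co.TreesExponential

open Pool.Agent.N418.FST

/-- For every prime `p > 2` there are a tree `T` and a graph `Y` on `n = 2p²` vertices such that
`FS(T, Y)` has a component containing two bijections at distance at least `2 ^ (p - 2)`.
Consequently there is no constant `K` such that every component of `FS(T, Y)`, `T` a tree, has
diameter at most `n ^ K`. -/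
theorem result :
    (∀ p : ℕ, p.Prime → 2 < p → ∃ T Y : SimpleGraph (Fin (2 * p ^ 2)), T.IsTree ∧
      ∃ σ τ : Fin (2 * p ^ 2) ≃ Fin (2 * p ^ 2),
        (FS T Y).Reachable σ τ ∧ 2 ^ (p - 2) ≤ (FS T Y).dist σ τ) ∧
    (∀ K : ℕ, ∃ n : ℕ, 2 ≤ n ∧ ∃ T Y : SimpleGraph (Fin n), T.IsTree ∧
      ∃ σ τ : Fin n ≃ Fin n, (FS T Y).Reachable σ τ ∧ n ^ K < (FS T Y).dist σ τ) := by
  have h : ∀ p : ℕ, p.Prime → 2 < p → ∃ T Y : SimpleGraph (Fin (2 * p ^ 2)), T.IsTree ∧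
      ∃ σ τ : Fin (2 * p ^ 2) ≃ Fin (2 * p ^ 2),
        (FS T Y).Reachable σ τ ∧ 2 ^ (p - 2) ≤ (FS T Y).dist σ τ := by
    intro p hp h2
    have : Fact p.Prime := ⟨hp⟩
    exact exists_large p h2
  refine ⟨h, ?_⟩
  intro K
  obtain ⟨p, hp, h2, hlt⟩ := arith K
  obtain ⟨T, Y, hT, σ, τ, hr, hd⟩ := h p hp h2
  exact ⟨2 * p ^ 2, by nlinarith, T, Y, hT, σ, τ, hr, lt_of_lt_of_le hlt hd⟩

end Pool.Agent.Results.MP_5b8c2d_co.TreesExponential
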